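import Pool.Agent.J6H20.IA.Main

/-!
# A set in `AM` that is immune for `Σ₂` and for `MA`, although polynomial space is nearly
polynomial time

For an arbitrarily slowly growing unbounded function `α` there are oracles relative to which all
problems in polynomial space are decided in deterministic time `n ^ O(α n)`, all problems in space
`2 ^ O(n)` in time `2 ^ O(n * α n)`, all problems in space `2 ^ O(2 ^ n)` in time
`2 ^ O(2 ^ n * α n)`, and nevertheless there is an infinite set of strings of ones in `AM` without
infinite subsets in `MA`, and even without infinite subsets in the second level `Σ₂` of the polynomial
hierarchy. For bounded `α` this is impossible, since then `P = PSPACE`.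

Idea of the proof. The codes for polynomial space in the oracle are so long that questions of
polynomial length cannot use the strings of the other part of the oracle of about the same length.
The set contains the string of `n` ones if all strings `ρ` of length `n` can be continued to a
string `ρ y` of length `2 n` in the oracle, and it is promised that otherwise this is so for at most
a third of them. If a machine accepts all oracles of the first kind given by functions `ρ ↦ y`, then
the same first message `u` is good for a large set of functions. Density restoration makes this set
constant on a small set of places and nearly unpredictable at the other places. Relative to the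
oracle in which only the strings of the small set can be continued the machine cannot notice the
difference, for this `u`. So, one after the other, all machines which would accept infinitely many
strings of ones are made to accept one that is not in the set.
-/

set_option autoImplicit false

namespace Pool.Agent.Results.MP_ff3ed7_lc.ImmuneAM

open Pool.Agent.NPC Pool.Agent.H628R3.RO Pool.Agent.J6H49.OP Pool.Agent.J6H49.AM
open Pool.Agent.J6H20.IM (Immune)
open Pool.Agent.J6H20.IA (ones)

/-- Let `α : ℕ → ℕ` be nondecreasing and unbounded and let `C` be any oracle. There is an oracle `O`
which contains `C` and is nearly collapsed with the function `α`, such that relative to `O` some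
infinite set of strings of ones is in `AM` and has no infinite subset in `Σ₂` and no infinite subset
in `MA`. -/
theorem result (α : ℕ → ℕ) (hα : Monotone α) (hα' : Filter.Tendsto α Filter.atTop Filter.atTop)
    (C : Oracle) : ∃ O : Oracle, NearlyCollapsed α O ∧ Contains O C ∧
      ∃ L : Set (List Bool), L ⊆ ones ∧ IsAM O L ∧ Immune (IsSigma2 O) L ∧ Immune (IsMA O) L :=
  Pool.Agent.J6H20.IA.main α hα hα' C

end Pool.Agent.Results.MP_ff3ed7_lc.ImmuneAM
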