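import Pool.Agent.J6H20.IB.Main

/-!
# A set in `AM ∩ coAM` which is immune for `MA`, although polynomial space is nearly polynomial time

For an arbitrarily slowly growing unbounded function `α` there are oracles relative to which all
problems in polynomial space are decided in deterministic time `n ^ O(α n)`, all problems in space
`2 ^ O(n)` in time `2 ^ O(n * α n)`, all problems in space `2 ^ O(2 ^ n)` in time
`2 ^ O(2 ^ n * α n)`, and nevertheless some infinite tally set `L` is in `AM` together with its
complement, and no infinite subset of `L` is in `MA`. For bounded `α` this is impossible, since then
`P = PSPACE`.

Idea of the proof. The set consists of the strings of `n` ones, `n` even, such that every string `ρ`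
of length `n` is continued in the oracle to a string `ρ y` of length `2 n`. It is promised that
either this holds for `n` and at most a third of the strings of length `n + 1` are continued to
strings of length `2 n + 2`, or conversely, with `n` and `n + 1` interchanged; hence the set and its
complement are in `AM`. In a stage finitely many `MA` machines are treated at once, at some large
even `n`. Either some way to continue all strings of length `n` is rejected by all of them, and then
the string of `n` ones is put into the set; or one of the machines accepts a large part of all these
ways with the same message, and then, after density restoration, it accepts with this message, with
probability at least `5 / 12`, an oracle with few continued strings. Continuing all strings of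
length `n + 1` at random changes this probability by at most `1 / 16` on the average; so the machine
does not reject, although the string is not in the set, and it need not be considered any more. Since
a stage needs only finitely many steps of the second kind before one of the first kind, the set is
infinite, and every machine which is never killed rejects almost all of its elements.
-/

set_option autoImplicit false

namespace Pool.Agent.Results.MP_ff3ed7_lc.ImmuneIntersection

open Pool.Agent.NPC Pool.Agent.H628R3.RO Pool.Agent.J6H49.OP Pool.Agent.J6H49.AM
open Pool.Agent.J6H20.IM (Immune)
open Pool.Agent.J6H20.IA (ones)

/-- Let `α : ℕ → ℕ` be nondecreasing and unbounded and let `C` be any oracle. There is an oracle `O`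
which contains `C` and is nearly collapsed with the function `α`, such that relative to `O` there is a
set `L` of strings of ones such that `L` and its complement are in `AM`, and `L` is infinite and has
no infinite subset in `MA`. -/
theorem result (α : ℕ → ℕ) (hα : Monotone α) (hα' : Filter.Tendsto α Filter.atTop Filter.atTop)
    (C : Oracle) : ∃ O : Oracle, NearlyCollapsed α O ∧ Contains O C ∧
      ∃ L : Set (List Bool), L ⊆ ones ∧ IsAM O L ∧ IsAM O Lᶜ ∧ Immune (IsMA O) L :=
  Pool.Agent.J6H20.IB.main α hα hα' C

end Pool.Agent.Results.MP_ff3ed7_lc.ImmuneIntersection
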