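import Pool.Agent.J6H27.MPH.Ma3

/-!
# AM versus MA, for short messages and monotone verifiers

`ArthurMerlin g s v` and `MerlinArthur g s v` (in `Pool.Agent.J6H27.MPH.MaDefs`): `v x` is the
probability that Arthur accepts the input `x` in a game of the type AM (Arthur sends a random
message, Merlin answers with `g` bits, a monotone circuit with `s` gates decides) and of the type
MA (Merlin sends `g` bits, then a random monotone circuit with `s` gates decides). All the circuits
and distributions may depend on the messages in an arbitrary way.
-/

set_option autoImplicit false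

namespace Pool.Agent.Results.MP_ff3ed7_lc.MonotonePromiseSeparation

open Filter Pool.Agent.J6H27.MPH

/-- **AM is not contained in MA, for promise problems, short messages and monotone verifiers.**
There are `δ > 0` and promise problems `(Y N, Z N)` on strings of `N` bits such that

* for all large `N` some Arthur-Merlin game with a message of `(log N) ^ 3` bits of Merlin and with
  monotone circuits with `(log N) ^ 3` gates accepts all `x` in `Y N` with probability one and all
  `x` in `Z N` with probability at most `N ^ (- δ)`,
* but for all `c` and all large `N` no Merlin-Arthur game with a message of `N ^ δ` bits and with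
  monotone circuits with `N ^ c` gates separates `Y N` from `Z N`, not even with a gap `N ^ (- δ)`:
  there is no `α` such that all `x` in `Y N` are accepted with probability at least
  `α + N ^ (- δ)` and all `x` in `Z N` with probability at most `α`. -/
theorem result :
    ∃ (δ : ℝ) (Y Z : ∀ N : ℕ, (Fin N → Bool) → Prop), 0 < δ ∧
      (∀ᶠ N : ℕ in atTop, ∃ v : (Fin N → Bool) → ℝ,
        ArthurMerlin (Nat.log 2 N ^ 3) (Nat.log 2 N ^ 3) v ∧
        (∀ x, Y N x → v x = 1) ∧ ∀ x, Z N x → v x ≤ (N : ℝ) ^ (-δ)) ∧
      ∀ c : ℕ, ∀ᶠ N : ℕ in atTop, ∀ (g : ℕ) (v : (Fin N → Bool) → ℝ),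
        (g : ℝ) ≤ (N : ℝ) ^ δ → MerlinArthur g (N ^ c) v →
        ∀ α : ℝ, ¬ ((∀ x, Y N x → α + (N : ℝ) ^ (-δ) ≤ v x) ∧ ∀ x, Z N x → v x ≤ α) :=
  am_vs_ma

end Pool.Agent.Results.MP_ff3ed7_lc.MonotonePromiseSeparation
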