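import Pool.Agent.J6H11.Hlp.Amh

/-!
# AM versus MA for verifiers with many non-monotone inputs

`ArthurMerlin g s v` and `MerlinArthur g s v` (in `Pool.Agent.J6H27.MPH.MaDefs`): `v x` is the
probability that Arthur accepts the input `x` in a game of the type AM (Arthur sends a random
message, Merlin answers with `g` bits, a monotone circuit with `s` gates decides) and of the type
MA (Merlin sends `g` bits, then a random monotone circuit with `s` gates decides). All the circuits
and distributions may depend on the messages in an arbitrary way.

`Help a help` (in `Pool.Agent.J6H11.Hlp.Dev`): the numbers `help x j`, `j < T`, modulo a prime `p`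
are sums with arbitrary weights of nodes of depth at most `a` of a circuit with at most `N ^ a` gates,
which are negations and conjunctions and disjunctions of arbitrary fan-in. So these are `T`
arbitrary non-monotone predicates of the class `MOD_p ∘ AC⁰`, for instance arbitrary parities of
variables or of polynomially many conjunctions of literals, or `T` of the variables.

The theorem says that AM (with monotone verification and without help) is not contained in MA, for
promise problems and short messages, even if the Merlin-Arthur game (the distributions and the final
circuits) may depend in an arbitrary way on `N ^ (1 - ε)` arbitrary predicates of this kind.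

Proof. The promise problem is that of `MonotonePromiseSeparation` for the majorities of `N ^ δ`
blocks of variables. For each `help` there is a monotone projection which keeps it and makes all
the numbers `help x j` constant (theorem `transferH`): a random restriction (switching lemma) turns
them into polynomials of constant degree, and the theorem of Chevalley and Warning gives, block after
block, a nonempty set of free variables such that the polynomials do not change if its values are
changed to one.
-/

set_option autoImplicit false

namespace Pool.Agent.Results.MP_ff3ed7_lc.PromiseSeparationWithHelp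

open Filter Pool.Agent.J6H27.MPH Pool.Agent.J6H11.Hlp

/-- **AM is not contained in MA, for promise problems, short messages and verifiers with many
non-monotone inputs.** For all `ε > 0` and `a` there are `δ > 0` and promise problems `(Y N, Z N)`
on strings of `N` bits such that

* for all large `N` some Arthur-Merlin game with a message of `(log N) ^ 3` bits of Merlin and with
  monotone circuits with `N ^ 3` gates accepts all `x` in `Y N` with probability one and all
  `x` in `Z N` with probability at most `N ^ (- δ)`,
* but for all `c` and all large `N` the following holds. Let `help` be `T ≤ N ^ (1 - ε)` arbitrary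
  non-monotone predicates of the class `MOD_p ∘ AC⁰` (depth `a`, at most `N ^ a` gates, `p ≤ N ^ δ`
  prime), and for each possible value `w` of `help` let `v w` be a Merlin-Arthur game with a
  message of `N ^ δ` bits and with monotone circuits with `N ^ c` gates. Then the game in which
  `v (help x)` is played on the input `x` does not separate `Y N` from `Z N`, not even with a gap
  `N ^ (- δ)`: there is no `α` such that all `x` in `Y N` are accepted with probability at least
  `α + N ^ (- δ)` and all `x` in `Z N` with probability at most `α`. -/
theorem result (ε : ℝ) (hε : 0 < ε) (a : ℕ) :
    ∃ (δ : ℝ) (Y Z : ∀ N : ℕ, (Fin N → Bool) → Prop), 0 < δ ∧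
      (∀ᶠ N : ℕ in atTop, ∃ v : (Fin N → Bool) → ℝ,
        ArthurMerlin (Nat.log 2 N ^ 3) (N ^ 3) v ∧
        (∀ x, Y N x → v x = 1) ∧ ∀ x, Z N x → v x ≤ (N : ℝ) ^ (-δ)) ∧
      ∀ c : ℕ, ∀ᶠ N : ℕ in atTop, ∀ (p : ℕ) [Fact p.Prime] (T : ℕ)
        (help : (Fin N → Bool) → Fin T → ZMod p) (g : ℕ)
        (v : (Fin T → ZMod p) → (Fin N → Bool) → ℝ),
        (p : ℝ) ≤ (N : ℝ) ^ δ → (T : ℝ) ≤ (N : ℝ) ^ (1 - ε) → Help a help →
        (g : ℝ) ≤ (N : ℝ) ^ δ → (∀ w, MerlinArthur g (N ^ c) (v w)) →
        ∀ α : ℝ, ¬ ((∀ x, Y N x → α + (N : ℝ) ^ (-δ) ≤ v (help x) x) ∧
          ∀ x, Z N x → v (help x) x ≤ α) :=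
  ma_help ε hε a

end Pool.Agent.Results.MP_ff3ed7_lc.PromiseSeparationWithHelp
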